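import Mathlib

set_option autoImplicit false

namespace Pool.Agent.Results.MP_e29efe_nt.FullSet

open Polynomial

/-- `α` lists, without repetition, all the conjugates of a nonzero algebraic number of degree `d`:
the entries are distinct and nonzero, and they are exactly the roots of one monic irreducible
rational polynomial. -/
def Conjugates {d : ℕ} (α : Fin d → ℂ) : Prop :=
  Function.Injective α ∧ (∀ i, α i ≠ 0) ∧
    ∃ f : ℚ[X], f.Monic ∧ Irreducible f ∧ f.map (algebraMap ℚ ℂ) = ∏ i, (X - C (α i))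

/-- Condition (A). -/
def CondA {d : ℕ} (b : Fin d → ℤ) : Prop :=
  ∃ i, ∑ j ∈ Finset.univ.erase i, |b j| < |b i|

/-- Condition (B). -/
def CondB {d : ℕ} (b : Fin d → ℤ) : Prop :=
  ∃ i, ∃ p : ℕ, p.Prime ∧ ¬ (p : ℤ) ∣ b i ∧ ∀ j, j ≠ i → (p : ℤ) ∣ b j

/-- For every `d ≥ 3` there is a vector satisfying neither (A) nor (B) whose relation has no
solution at all. -/
theorem result : ∀ d : ℕ, 3 ≤ d → ∃ b : Fin d → ℤ, ¬ CondA b ∧ ¬ CondB b ∧
    ∀ α : Fin d → ℂ, Conjugates α → ∏ i, α i ^ b i ≠ 1 := by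
  intro d hd
  let i0 : Fin d := ⟨0, by omega⟩
  let i1 : Fin d := ⟨1, by omega⟩
  let i2 : Fin d := ⟨2, by omega⟩
  have h01 : i0 ≠ i1 := by intro h; have := congrArg Fin.val h; simp [i0, i1] at this
  have h02 : i0 ≠ i2 := by intro h; have := congrArg Fin.val h; simp [i0, i2] at this
  have h12 : i1 ≠ i2 := by intro h; have := congrArg Fin.val h; simp [i1, i2] at this
  have hone : ∀ j : Fin d, (1 : ℤ) ≤ |if j = i0 then (2 : ℤ) else 1| := by
    intro j; split_ifs <;> norm_num
  refine ⟨fun i => if i = i0 then 2 else 1, ?_, ?_, ?_⟩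
  · rintro ⟨i, hi⟩
    have hle : |if i = i0 then (2 : ℤ) else 1| ≤ 2 := by split_ifs <;> norm_num
    have hge : (2 : ℤ) ≤ ∑ j ∈ Finset.univ.erase i, |if j = i0 then (2 : ℤ) else 1| := by
      have h1 : ∑ j ∈ (Finset.univ.erase i : Finset (Fin d)), (1 : ℤ) ≤
          ∑ j ∈ Finset.univ.erase i, |if j = i0 then (2 : ℤ) else 1| :=
        Finset.sum_le_sum fun j _ => hone j
      rw [Finset.sum_const, Finset.card_erase_of_mem (Finset.mem_univ i), Finset.card_univ,
        Fintype.card_fin] at h1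
      have h2 : (2 : ℤ) ≤ ((d - 1) • (1 : ℤ)) := by
        rw [nsmul_eq_mul, mul_one]
        have : 2 ≤ d - 1 := by omega
        exact_mod_cast this
      exact h2.trans h1
    simp only at hi
    omega
  · rintro ⟨i, p, hp, _, hdiv⟩
    have key : ∃ j : Fin d, j ≠ i ∧ j ≠ i0 := by
      by_cases h : i = i1
      · exact ⟨i2, by rw [h]; exact h12.symm, h02.symm⟩
      · exact ⟨i1, fun h' => h h'.symm, h01.symm⟩
    obtain ⟨j, hj, hj0⟩ := key
    have h1 := hdiv j hj
    simp only [hj0, if_false] at h1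
    have h2 : (p : ℤ) ∣ ((1 : ℕ) : ℤ) := by exact_mod_cast h1
    rw [Int.natCast_dvd_natCast] at h2
    have := Nat.le_of_dvd one_pos h2
    have := hp.two_le
    omega
  · rintro α ⟨_, hne, f, hmonic, hirr, hf⟩ hrel
    -- the relation reads `α 0 * ∏ α = 1`
    have hsplit : ∏ i, α i ^ (if i = i0 then (2 : ℤ) else 1) = α i0 * ∏ i, α i := by
      rw [← Finset.mul_prod_erase Finset.univ _ (Finset.mem_univ i0),
        ← Finset.mul_prod_erase Finset.univ (fun i => α i) (Finset.mem_univ i0)]
      have : ∏ x ∈ Finset.univ.erase i0, α x ^ (if x = i0 then (2 : ℤ) else 1) =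
          ∏ x ∈ Finset.univ.erase i0, α x := by
        apply Finset.prod_congr rfl
        intro x hx
        rw [if_neg (Finset.ne_of_mem_erase hx), zpow_one]
      rw [this, if_pos rfl]
      rw [show α i0 ^ (2 : ℤ) = α i0 * α i0 by
        rw [show (2 : ℤ) = 1 + 1 by norm_num, zpow_add₀ (hne i0), zpow_one]]
      ring
    have hrel' : α i0 * ∏ i, α i = 1 := by rw [← hsplit]; exact hrel
    -- the product of the conjugates is rational
    have hprod : ∏ i, α i = (((-1) ^ d * f.coeff 0 : ℚ) : ℂ) := by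
      have h1 : (f.map (algebraMap ℚ ℂ)).eval 0 = ∏ i, (-(α i)) := by
        rw [hf, eval_prod]
        apply Finset.prod_congr rfl
        intro i _
        simp
      have h2 : (f.map (algebraMap ℚ ℂ)).eval 0 = ((f.coeff 0 : ℚ) : ℂ) := by
        rw [← coeff_zero_eq_eval_zero, coeff_map]
        simp
      rw [h2, Finset.prod_neg, Finset.card_univ, Fintype.card_fin] at h1
      push_cast
      rw [h1, ← mul_assoc, ← mul_pow]
      simp
    set N : ℚ := (-1) ^ d * f.coeff 0 with hN
    rw [hprod] at hrel'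
    have hNne : (N : ℂ) ≠ 0 := right_ne_zero_of_mul_eq_one hrel'
    have hα0 : α i0 = ((N⁻¹ : ℚ) : ℂ) := by
      push_cast
      exact eq_inv_of_mul_eq_one_left hrel'
    have hroot : f.IsRoot N⁻¹ := by
      have h1 : (f.map (algebraMap ℚ ℂ)).eval (α i0) = 0 := by
        rw [hf, eval_prod]
        apply Finset.prod_eq_zero (Finset.mem_univ i0)
        simp
      rw [hα0] at h1
      have h2 : (f.map (algebraMap ℚ ℂ)).eval (((N⁻¹ : ℚ) : ℂ)) = ((f.eval N⁻¹ : ℚ) : ℂ) := by
        rw [show (((N⁻¹ : ℚ) : ℂ)) = (algebraMap ℚ ℂ) N⁻¹ by simp, eval_map_algebraMap,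
          aeval_algebraMap_apply]
        simp [aeval_def]
      rw [h2] at h1
      exact_mod_cast h1
    have hdeg1 : f.natDegree = 1 := by
      have := degree_eq_one_of_irreducible_of_root hirr hroot
      exact natDegree_eq_of_degree_eq_some this
    have hdegd : f.natDegree = d := by
      have h1 : (f.map (algebraMap ℚ ℂ)).natDegree = d := by
        rw [hf, natDegree_prod_of_monic _ _ (fun i _ => monic_X_sub_C _)]
        simp
      rwa [natDegree_map] at h1
    omega

end Pool.Agent.Results.MP_e29efe_nt.FullSet
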